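import Pool.Agent.Y134.UL.Defs0
import Pool.Agent.Y134.TF.Defs

/-!
# The Tate conjecture from one submodule: definitions
-/

set_option autoImplicit false

universe u

namespace Pool.Agent.Y134.UL

open Pool.Agent.TH125.Gal Pool.Agent.Y134.TF

section
variable {Γ : Type} [Group Γ]

/-- The representation `ρ` of `Γ` preserves the hermitian or skew hermitian form `h`, and it has a
lattice `Λ` as in `HasRadical` and `OneSub`, for the subgroup `Γ'`. -/
structure IsOneSub {K₀ : Type} [Field K₀] {V : Type} [AddCommGroup V] [Module K₀ V]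
    (ρ : Representation K₀ Γ V) (R : Subring K₀) (l : K₀) (τ : K₀ →+* K₀) (h : V → V → K₀)
    (Λ : AddSubgroup V) (r : V) (Γ' : Subgroup Γ) : Prop where
  loc : IsLoc R l τ
  herm : IsHerm τ h
  inv : ∀ g x y, h (ρ g x) (ρ g y) = h x y
  lat : IsLat R l Λ
  radical : HasRadical R l Λ h r
  one : OneSub R l ρ Λ r Γ'

/-- A representation of `Γ` on a finite dimensional space over `K₀`. -/
structure Rep (K₀ : Type) [Field K₀] (Γ : Type) [Group Γ] where
  /-- the space -/
  V : Type
  [addCommGroup : AddCommGroup V]
  [module : Module K₀ V]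
  [finite : FiniteDimensional K₀ V]
  /-- the representation -/
  rep : Representation K₀ Γ V

attribute [instance] Rep.addCommGroup Rep.module Rep.finite

/-- The representation `F` has a lattice as in `IsOneSub`, for the whole group `Γ`, and its image is
not a torsion group. -/
def Rep.Good {K₀ : Type} [Field K₀] (F : Rep K₀ Γ) : Prop :=
  (∃ R l τ h Λ r, IsOneSub F.rep R l τ h Λ r ⊤) ∧ ∃ g, ∀ n : ℕ, 0 < n → F.rep (g ^ n) ≠ 1

variable {K A : Type} [Field K] [Ring A] [Algebra K A]

/-- The subspace `P` of `A` is spanned by the images of additive maps from `F` to `A` which are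
semilinear with respect to embeddings of `K₀` into `K` and equivariant for the action of `Γ` on `A`
twisted by `χ ^ (- m)` (for instance `P ≃ K ⊗_ℚp F` for `K₀` of finite degree over `ℚ_p`). -/
def Rep.Spans {K₀ : Type} [Field K₀] (F : Rep K₀ Γ) (χ : Γ →* Kˣ) (m : ℕ) (P : Submodule K A)
    (act : Γ →* (A ≃ₐ[K] A)) : Prop :=
  ∃ (I : Type) (s : I → K₀ →+* K) (j : I → F.V →+ A), (∀ i c v, j i (c • v) = s i c • j i v) ∧
    (∀ i g v, act g (j i v) = (χ g : K) ^ m • j i (F.rep g v)) ∧
    Submodule.span K (⋃ i, Set.range (j i)) = P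

/-- The group `Γ` acts on the cohomology algebra `A` of a variety of dimension `n` (with the degrees
`gr`, the orientation `tr` and the sets `C j` of the classes of cycles of codimension `j`) like a
Galois group; `n` is even; `A` is the sum of a space spanned by classes of cycles and of the
subspace `P` of the cohomology in the degree `n`, and these spaces are orthogonal (for instance `P`
is the primitive cohomology of a cyclic covering of projective space); and `P` is spanned by a
representation with the property `Rep.Good`. -/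
structure IsCover (χ : Γ →* Kˣ) (gr : ℕ → Submodule K A) (n : ℕ) (tr : A →ₗ[K] K)
    (C : ℕ → Set A) (act : Γ →* (A ≃ₐ[K] A)) (P : Submodule K A) : Prop where
  galois : IsGaloisAct χ gr n tr C act
  even : Even n
  middle : P ≤ gr n
  sum : OrthSum tr (Submodule.span K (⋃ j, C j)) P
  span : ∃ (K₀ : Type) (_ : Field K₀) (F : Rep K₀ Γ), F.Good ∧ F.Spans χ (n / 2) P act

end

open Pool.Agent.H914 Pool.Agent.H914.VarClass.Obj Pool.Agent.H914.WeilCohomology
  Pool.Agent.H281R3.HT

variable {k : Type u} [Field k] {𝒱 : VarClass k} {ops : CycleOps 𝒱}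
  {W : WeilCohomology.{u, 0} ops} {Γ : Type} [Group Γ]

/-- The variety `X` has the property `IsCover`. -/
def Cover (χ : Γ →* W.Kˣ) (X : PVar W Γ) : Prop :=
  IsCover χ (W.gr X.X) X.X.dim (W.tr X.X) (algClasses W X.X) X.act X.P

end Pool.Agent.Y134.UL
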