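import Mathlib

/-!
# Lattices with a one-dimensional radical modulo a prime: definitions
-/

set_option autoImplicit false

namespace Pool.Agent.Y134.UL

section
variable {K₀ : Type} [Field K₀]

/-- `R` is a local subring of the field `K₀` with the maximal ideal `l R`, stable under the
endomorphism `τ` of `K₀`. -/
structure IsLoc (R : Subring K₀) (l : K₀) (τ : K₀ →+* K₀) : Prop where
  mem : l ∈ R
  ne : l ≠ 0
  inv_notMem : l⁻¹ ∉ R
  unit : ∀ c ∈ R, (c ≠ 0 ∧ c⁻¹ ∈ R) ∨ ∃ d ∈ R, c = l * d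
  map_mem : ∀ c ∈ R, τ c ∈ R
  map_l : ∃ d ∈ R, τ l = l * d

variable {V : Type} [AddCommGroup V] [Module K₀ V]

/-- `h` is a nondegenerate hermitian or skew hermitian form on `V` with respect to `τ`; this means
symmetric or skew symmetric if `τ` is the identity. -/
structure IsHerm (τ : K₀ →+* K₀) (h : V → V → K₀) : Prop where
  add_left : ∀ x y z, h (x + y) z = h x z + h y z
  smul_left : ∀ (c : K₀) x y, h (c • x) y = c * h x y
  symm : (∀ x y, h y x = τ (h x y)) ∨ (∀ x y, h y x = -τ (h x y))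
  nondeg : ∀ x, (∀ y, h x y = 0) → x = 0

/-- The subgroup `Λ` of `V` is a lattice over `R`. -/
structure IsLat (R : Subring K₀) (l : K₀) (Λ : AddSubgroup V) : Prop where
  smul_mem : ∀ c ∈ R, ∀ x ∈ Λ, c • x ∈ Λ
  absorb : ∀ x : V, ∃ n : ℕ, l ^ n • x ∈ Λ
  separated : ∀ x ∈ Λ, x ≠ 0 → ∃ n : ℕ, ∀ y ∈ Λ, x ≠ l ^ n • y

/-- The form `h` is integral on `Λ`; the radical of its reduction, a form on `Λ / l Λ`, is generated
by the class of `r`; and `h(r, r) / l` is a unit, or `r = 0` and the radical is zero. -/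
structure HasRadical (R : Subring K₀) (l : K₀) (Λ : AddSubgroup V) (h : V → V → K₀) (r : V) :
    Prop where
  integral : ∀ x ∈ Λ, ∀ y ∈ Λ, h x y ∈ R
  mem : r ∈ Λ
  radical_r : ∀ y ∈ Λ, ∃ d ∈ R, h r y = l * d
  radical : ∀ x ∈ Λ, (∀ y ∈ Λ, ∃ d ∈ R, h x y = l * d) → ∃ c ∈ R, ∃ y ∈ Λ, x = c • r + l • y
  norm : r = 0 ∨ ∃ u ∈ R, u⁻¹ ∈ R ∧ u ≠ 0 ∧ h r r = l * u

variable {Γ : Type} [Group Γ]

/-- The lattice `Λ` is stable under `Γ`, and `Λ / l Λ` contains no subspace which is stable under the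
subgroup `Γ'` and different from zero, from `Λ / l Λ` and from the subspace generated by the class
of `r`, a line or zero. (The lattices between `l Λ` and `Λ` which are stable under `Γ'` are `l Λ`,
`R r + l Λ` and `Λ`.) -/
structure OneSub (R : Subring K₀) (l : K₀) (ρ : Representation K₀ Γ V) (Λ : AddSubgroup V) (r : V)
    (Γ' : Subgroup Γ) : Prop where
  stable : ∀ g, ∀ x ∈ Λ, ρ g x ∈ Λ
  only : ∀ M : AddSubgroup V, M ≤ Λ → (∀ c ∈ R, ∀ x ∈ M, c • x ∈ M) → (∀ x ∈ Λ, l • x ∈ M) →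
    (∀ g ∈ Γ', ∀ x ∈ M, ρ g x ∈ M) →
    (∀ x ∈ M, ∃ y ∈ Λ, x = l • y) ∨ (r ∈ M ∧ ∀ x ∈ M, ∃ c ∈ R, ∃ y ∈ Λ, x = c • r + l • y) ∨ Λ ≤ M

end

end Pool.Agent.Y134.UL
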