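import Pool.Agent.Y134.UL.Defs0
import Pool.Agent.Y134.TF.Defs

/-!
# Products of powers from one submodule: definitions
-/

set_option autoImplicit false

universe u

namespace Pool.Agent.Y134.UL

open Polynomial Pool.Agent.TH125.Gal Pool.Agent.Y134.TF

section
variable {Γ : Type} [Group Γ] {K₀ : Type} [Field K₀]

/-- The dimension of a subspace. -/
noncomputable def rk {K A : Type} [Field K] [Ring A] [Algebra K A] (P : Submodule K A) : ℕ :=
  Module.finrank K P

/-- The representation `F` has a lattice with the property `HasRadical` for its form and the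
property `OneSub` for all normal subgroups `Γ'` of `Γ` of index at most `N !`, where `N` is the
dimension of `F`. -/
def StrongOneSub (F : FormRep K₀ Γ) : Prop :=
  ∃ (R : Subring K₀) (l : K₀) (Λ : AddSubgroup F.V) (r : F.V), IsLoc R l (RingHom.id K₀) ∧
    IsLat R l Λ ∧ HasRadical R l Λ (fun x y => F.form x y) r ∧ ∀ Γ' : Subgroup Γ, Γ'.Normal →
      Γ'.FiniteIndex → Γ'.index ≤ (Module.finrank K₀ F.V).factorial → OneSub R l F.rep Λ r Γ'

/-- Some element of `Γ` has exactly one eigenvalue which is a root of unity, with multiplicity one: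
its characteristic polynomial is `(X - ε) R` where `ε = 1` or `ε = -1`, and `R` is not constant and
prime to all polynomials `X ^ n - 1`. -/
def SimpleSign (F : FormRep K₀ Γ) : Prop :=
  ∃ (g : Γ) (ε : K₀) (R : K₀[X]), ε * ε = 1 ∧ (F.rep g).charpoly = (X - C ε) * R ∧
    R.natDegree ≠ 0 ∧ ∀ n : ℕ, 0 < n → IsCoprime R (X ^ n - 1)

/-- The characteristic polynomial of some element `g` of `Γ` has a simple root in `K` which is
isolated with respect to the set `E g`. -/
def HasIsolated (F : FormRep K₀ Γ) {K : Type} [Field K] [Algebra K₀ K] (E : Γ → Set K) : Prop :=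
  ∃ (g : Γ) (x : K), IsolatedRoot (F.rep g).charpoly (E g) x ∧
    aeval x (derivative (F.rep g).charpoly) ≠ 0

variable {K A : Type} [Field K] [Ring A] [Algebra K A]

/-- For a field `K₀` of characteristic `0` (a subfield of `K`), the subspace `P` of `A` has a
`K₀`-structure, with its form and with the action of `Γ` twisted by `χ ^ (- m)`, which has the
properties `StrongOneSub`, `SimpleSign` and `HasIsolated`. -/
def HasStr (χ : Γ →* Kˣ) (tr : A →ₗ[K] K) (m : ℕ) (P : Submodule K A) (act : Γ →* (A ≃ₐ[K] A))
    (E : Γ → Set K) : Prop :=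
  ∃ (K₀ : Type) (_ : Field K₀) (_ : CharZero K₀) (_ : Algebra K₀ K) (F : FormRep K₀ Γ)
    (j : F.V →+ A), IsRational χ tr m P act F.form F.rep j ∧ StrongOneSub F ∧ SimpleSign F ∧
      HasIsolated F E

/-- The group `Γ` acts on the cohomology algebra `A` of a variety of dimension `n` (with the degrees
`gr`, the orientation `tr` and the sets `C j` of the classes of cycles of codimension `j`) like a
Galois group; `n` is even; `A` is the sum of a space spanned by classes of cycles and of the
subspace `P` of the cohomology in the degree `n`, and these spaces are orthogonal (for instance `P`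
is the primitive cohomology of a hypersurface or of a cyclic covering of projective space); `P` has
the property `HasStr`. -/
structure IsStrong (χ : Γ →* Kˣ) (gr : ℕ → Submodule K A) (n : ℕ) (tr : A →ₗ[K] K)
    (C : ℕ → Set A) (act : Γ →* (A ≃ₐ[K] A)) (P : Submodule K A) (E : Γ → Set K) : Prop where
  galois : IsGaloisAct χ gr n tr C act
  even : Even n
  middle : P ≤ gr n
  sum : OrthSum tr (Submodule.span K (⋃ j, C j)) P
  str : HasStr χ tr (n / 2) P act E

end

open Pool.Agent.H914 Pool.Agent.H914.VarClass.Obj Pool.Agent.H914.WeilCohomology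
  Pool.Agent.H281R3.HT

variable {k : Type u} [Field k] {𝒱 : VarClass k} {ops : CycleOps 𝒱}
  {W : WeilCohomology.{u, 0} ops} {Γ : Type} [Group Γ]

/-- The variety `X` has the property `IsStrong`. -/
def Strong (χ : Γ →* W.Kˣ) (X : PVar W Γ) (E : Γ → Set W.K) : Prop :=
  IsStrong χ (W.gr X.X) X.X.dim (W.tr X.X) (algClasses W X.X) X.act X.P E

end Pool.Agent.Y134.UL
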