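import Pool.Agent.Y134.UL.Defs0

/-!
# Irreducibility from the reduction of a lattice
-/

set_option autoImplicit false

namespace Pool.Agent.Y134.UL

open Module

section
variable {K₀ : Type} [Field K₀] {R : Subring K₀} {l : K₀} {τ : K₀ →+* K₀}
  {V : Type} [AddCommGroup V] [Module K₀ V] {Λ : AddSubgroup V} {h : V → V → K₀} {r : V}

section herm
variable (hh : IsHerm τ h)
include hh

lemma symm_zero {x y : V} (hxy : h x y = 0) : h y x = 0 := by
  rcases hh.symm with h1 | h1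
  · rw [h1, hxy, map_zero]
  · rw [h1, hxy, map_zero, neg_zero]

lemma add_right (x y z : V) : h x (y + z) = h x y + h x z := by
  rcases hh.symm with h1 | h1
  · rw [h1, hh.add_left, map_add, ← h1, ← h1]
  · rw [h1, hh.add_left, map_add, neg_add, ← h1, ← h1]

lemma smul_right (c : K₀) (x y : V) : h x (c • y) = τ c * h x y := by
  rcases hh.symm with h1 | h1
  · rw [h1, hh.smul_left, map_mul, ← h1]
  · rw [h1, hh.smul_left, map_mul, ← mul_neg, ← h1]

lemma zero_left (y : V) : h 0 y = 0 := by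
  have h1 := hh.smul_left 0 0 y
  rwa [zero_smul, zero_mul] at h1

lemma sub_left (x y z : V) : h (x - y) z = h x z - h y z := by
  have h1 := hh.add_left (x - y) y z
  rw [sub_add_cancel] at h1
  rw [h1, add_sub_cancel_right]

end herm

section lat
variable (hR : IsLoc R l τ) (hΛ : IsLat R l Λ)
include hR hΛ

/-- A nonzero subspace contains a primitive vector. -/
lemma exists_primitive {U : Submodule K₀ V} (hU : U ≠ ⊥) :
    ∃ x ∈ Λ, x ∈ U ∧ ∀ y ∈ Λ, x ≠ l • y := by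
  classical
  obtain ⟨u, hu, hu0⟩ := (Submodule.ne_bot_iff U).1 hU
  obtain ⟨n, hn⟩ := hΛ.absorb u
  have hx0 : l ^ n • u ≠ 0 := smul_ne_zero (pow_ne_zero _ hR.ne) hu0
  have hx := hΛ.separated _ hn hx0
  have hm := Nat.find_spec hx
  have hm0 : Nat.find hx ≠ 0 := by
    intro h0
    rw [h0] at hm
    exact hm _ hn (by rw [pow_zero, one_smul])
  obtain ⟨m, hm1⟩ := Nat.exists_eq_succ_of_ne_zero hm0
  have hm2 := Nat.find_min hx (m := m) (by omega)
  push Not at hm2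
  obtain ⟨y, hy, hxy⟩ := hm2
  refine ⟨y, hy, ?_, ?_⟩
  · have h3 : y = ((l ^ m)⁻¹ * l ^ n) • u := by
      rw [mul_smul, hxy, smul_smul, inv_mul_cancel₀ (pow_ne_zero _ hR.ne), one_smul]
    rw [h3]
    exact U.smul_mem _ hu
  · intro z hz hyz
    rw [hm1] at hm
    apply hm z hz
    rw [hxy, hyz, smul_smul, pow_succ]

end lat

lemma neg_mem_l {a : K₀} (ha : ∃ d ∈ R, a = l * d) : ∃ d ∈ R, -a = l * d := by
  obtain ⟨d, hd, rfl⟩ := ha
  exact ⟨-d, R.neg_mem hd, by ring⟩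

lemma map_mem_l (hR : IsLoc R l τ) {a : K₀} (ha : ∃ d ∈ R, a = l * d) : ∃ d ∈ R, τ a = l * d := by
  obtain ⟨d, hd, rfl⟩ := ha
  obtain ⟨e, he, hle⟩ := hR.map_l
  exact ⟨e * τ d, R.mul_mem he (hR.map_mem d hd), by rw [map_mul, hle]; ring⟩

/-- Units. -/
def IsU (R : Subring K₀) (u : K₀) : Prop := u ∈ R ∧ u⁻¹ ∈ R ∧ u ≠ 0

lemma IsU.mul {u v : K₀} (hu : IsU R u) (hv : IsU R v) : IsU R (u * v) :=
  ⟨R.mul_mem hu.1 hv.1, by rw [mul_inv]; exact R.mul_mem hu.2.1 hv.2.1,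
    mul_ne_zero hu.2.2 hv.2.2⟩

lemma IsU.map (hR : IsLoc R l τ) {u : K₀} (hu : IsU R u) : IsU R (τ u) :=
  ⟨hR.map_mem _ hu.1, by rw [← map_inv₀]; exact hR.map_mem _ hu.2.1,
    (_root_.map_ne_zero τ).2 hu.2.2⟩

lemma not_isU (hR : IsLoc R l τ) {u d : K₀} (hu : IsU R u) (hd : d ∈ R) : u ≠ l * d := by
  intro h1
  apply hR.inv_notMem
  have hd0 : d ≠ 0 := by
    rintro rfl
    exact hu.2.2 (by rw [h1, mul_zero])
  have h2 : l⁻¹ = d * u⁻¹ := by
    rw [h1, mul_inv]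
    field_simp
  rw [h2]
  exact R.mul_mem hd hu.2.1

lemma IsU.add (hR : IsLoc R l τ) {u d : K₀} (hu : IsU R u) (hd : d ∈ R) : IsU R (u + l * d) := by
  have h1 : u + l * d ∈ R := R.add_mem hu.1 (R.mul_mem hR.mem hd)
  rcases hR.unit _ h1 with h2 | ⟨e, he, h2⟩
  · exact ⟨h1, h2.2, h2.1⟩
  · exfalso
    exact not_isU hR hu (R.sub_mem he hd) (by rw [mul_sub, ← h2]; ring)

section
variable (hR : IsLoc R l τ) (hΛ : IsLat R l Λ) (hh : IsHerm τ h) (hr : HasRadical R l Λ h r)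
  (hr0 : r ≠ 0)

include hR hh hr in
lemma radical_r' : ∀ y ∈ Λ, ∃ d ∈ R, h y r = l * d := by
  intro y hy
  rcases hh.symm with h1 | h1
  · rw [h1]
    exact map_mem_l hR (hr.radical_r y hy)
  · rw [h1]
    exact neg_mem_l (map_mem_l hR (hr.radical_r y hy))

include hR hh hr hr0 in
/-- The form on two vectors in the class of `r`. -/
lemma form_radical {x y : V} (hx : ∃ c, IsU R c ∧ ∃ s ∈ Λ, x = c • r + l • s)
    (hy : ∃ c, IsU R c ∧ ∃ s ∈ Λ, y = c • r + l • s) : ∃ u, IsU R u ∧ h x y = l * u := by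
  obtain ⟨c, hc, s, hs, rfl⟩ := hx
  obtain ⟨c', hc', s', hs', rfl⟩ := hy
  obtain ⟨u, hu, hui, hu0, hrr⟩ := hr.norm.resolve_left hr0
  obtain ⟨d₁, hd₁, h₁⟩ := hr.radical_r s' hs'
  obtain ⟨d₂, hd₂, h₂⟩ := radical_r' hR hh hr s hs
  obtain ⟨m, hm, hlm⟩ := hR.map_l
  have h₃ := hr.integral s hs s' hs'
  refine ⟨c * τ c' * u + l * (c * m * d₁ + τ c' * d₂ + m * h s s'),
    IsU.add hR ((hc.mul (hc'.map hR)).mul ⟨hu, hui, hu0⟩) ?_, ?_⟩
  · refine R.add_mem (R.add_mem ?_ ?_) (R.mul_mem hm h₃)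
    · exact R.mul_mem (R.mul_mem hc.1 hm) hd₁
    · exact R.mul_mem (hc'.map hR).1 hd₂
  · rw [hh.add_left, add_right hh, add_right hh, hh.smul_left, hh.smul_left, hh.smul_left,
      hh.smul_left, smul_right hh, smul_right hh, smul_right hh, smul_right hh, hrr, h₁, h₂, hlm]
    ring

include hR hΛ in
/-- Primitive vectors in the class of `r`. -/
lemma primitive_unit {x : V} (hprim : ∀ y ∈ Λ, x ≠ l • y) (hrΛ : r ∈ Λ)
    (hx : ∃ c ∈ R, ∃ y ∈ Λ, x = c • r + l • y) : ∃ c, IsU R c ∧ ∃ s ∈ Λ, x = c • r + l • s := by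
  obtain ⟨c, hc, y, hy, rfl⟩ := hx
  rcases hR.unit c hc with h1 | ⟨d, hd, rfl⟩
  · exact ⟨c, ⟨hc, h1.2, h1.1⟩, y, hy, rfl⟩
  · exfalso
    apply hprim (d • r + y) (Λ.add_mem (hΛ.smul_mem d hd r hrΛ) hy)
    rw [smul_add, smul_smul]

include hR hΛ hh hr hr0 in
/-- A nonzero subspace such that all its vectors in the lattice are in the class of `r` is a
line. -/
lemma exists_line {U : Submodule K₀ V} (hU : U ≠ ⊥)
    (hker : ∀ x ∈ Λ, x ∈ U → ∃ c ∈ R, ∃ y ∈ Λ, x = c • r + l • y) :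
    ∃ e ∈ Λ, e ∈ U ∧ (∃ c, IsU R c ∧ ∃ s ∈ Λ, e = c • r + l • s) ∧
      ∀ x ∈ U, ∃ t : K₀, x = t • e := by
  have key : ∀ U' : Submodule K₀ V, U' ≤ U → U' ≠ ⊥ →
      ∃ e ∈ Λ, e ∈ U' ∧ ∃ c, IsU R c ∧ ∃ s ∈ Λ, e = c • r + l • s := by
    intro U' hle hne
    obtain ⟨e, heΛ, he, he2⟩ := exists_primitive hR hΛ hne
    exact ⟨e, heΛ, he, primitive_unit hR hΛ he2 hr.mem (hker e heΛ (hle he))⟩
  obtain ⟨e, heΛ, he, hes⟩ := key U le_rfl hU
  refine ⟨e, heΛ, he, hes, fun x hx => ?_⟩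
  obtain ⟨u, hu, hee⟩ := form_radical hR hh hr hr0 hes hes
  have hee0 : h e e ≠ 0 := by
    rw [hee]
    exact mul_ne_zero hR.ne hu.2.2
  refine ⟨h x e / h e e, ?_⟩
  by_contra hne
  set x' : V := x - (h x e / h e e) • e with hx'
  have hx'0 : x' ≠ 0 := fun h0 => hne (sub_eq_zero.1 h0)
  have hx'U : x' ∈ U := U.sub_mem hx (U.smul_mem _ he)
  have hbx' : h x' e = 0 := by
    rw [hx', sub_left hh, hh.smul_left, div_mul_cancel₀ _ hee0, sub_self]
  obtain ⟨z, hzΛ, hz, hzs⟩ := key (Submodule.span K₀ {x'})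
    ((Submodule.span_singleton_le_iff_mem _ _).2 hx'U)
    (by rw [Ne, Submodule.span_singleton_eq_bot]; exact hx'0)
  obtain ⟨t, ht⟩ := Submodule.mem_span_singleton.1 hz
  obtain ⟨w, hw, hze⟩ := form_radical hR hh hr hr0 hzs hes
  rw [← ht, hh.smul_left, hbx', mul_zero] at hze
  exact hw.2.2 ((mul_eq_zero.1 hze.symm).resolve_left hR.ne)

variable {Γ : Type} [Group Γ] {ρ : Representation K₀ Γ V} {Γ' : Subgroup Γ}

include hR hΛ hh hr in
/-- A stable line in the class of `r` must be the whole space. -/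
lemma line_top (hinv : ∀ g x y, h (ρ g x) (ρ g y) = h x y) (hS : OneSub R l ρ Λ r Γ')
    {U : Submodule K₀ V} (hst : ∀ g ∈ Γ', ∀ x ∈ U, ρ g x ∈ U) (hU : U ≠ ⊥)
    (hker : ∀ x ∈ Λ, x ∈ U → ∃ c ∈ R, ∃ y ∈ Λ, x = c • r + l • y) : U = ⊤ := by
  have hr0 : r ≠ 0 := by
    intro h0
    obtain ⟨x, hx, hxU, hprim⟩ := exists_primitive hR hΛ hU
    obtain ⟨c, -, y, hy, hxy⟩ := hker x hx hxU
    exact hprim y hy (by rw [hxy, h0, smul_zero, zero_add])
  obtain ⟨e, heΛ, he, hes, hline⟩ := exists_line hR hΛ hh hr hr0 hU hker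
  obtain ⟨u, hu, hee⟩ := form_radical hR hh hr hr0 hes hes
  have hee0 : h e e ≠ 0 := by
    rw [hee]
    exact mul_ne_zero hR.ne hu.2.2
  -- the values of the form with `e`
  have hval : ∀ x ∈ Λ, ∃ a ∈ R, h x e = a * h e e := by
    intro x hx
    obtain ⟨c, hc, s, hs, hcs⟩ := hes
    obtain ⟨d, hd, hxr⟩ := radical_r' hR hh hr x hx
    obtain ⟨m, hm, hlm⟩ := hR.map_l
    have h1 : h x e = l * (τ c * d + m * h x s) := by
      rw [hcs, add_right hh, smul_right hh, smul_right hh, hxr, hlm]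
      ring
    refine ⟨(τ c * d + m * h x s) * u⁻¹, ?_, ?_⟩
    · exact R.mul_mem (R.add_mem (R.mul_mem (hc.map hR).1 hd)
        (R.mul_mem hm (hr.integral x hx s hs))) hu.2.1
    · rw [h1, hee]
      field_simp [hu.2.2]
  obtain ⟨w, hw, hre⟩ := form_radical hR hh hr hr0 (x := r) (y := e)
    ⟨1, ⟨R.one_mem, by rw [inv_one]; exact R.one_mem, one_ne_zero⟩, 0, Λ.zero_mem, by
      rw [one_smul, smul_zero, add_zero]⟩ hes
  have hre' : h r e = (w * u⁻¹) * h e e := by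
    rw [hre, hee]
    field_simp [hu.2.2]
  have hwu : IsU R (w * u⁻¹) := hw.mul ⟨hu.2.1, by rw [inv_inv]; exact hu.1, inv_ne_zero hu.2.2⟩
  -- the complement
  let M : AddSubgroup V :=
    { carrier := {x | x ∈ Λ ∧ ∃ a ∈ R, h x e = (l * a) * h e e}
      add_mem' := by
        rintro x y ⟨hx, a, ha, hxa⟩ ⟨hy, b, hb, hyb⟩
        refine ⟨Λ.add_mem hx hy, a + b, R.add_mem ha hb, ?_⟩
        rw [hh.add_left, hxa, hyb]
        ring
      zero_mem' := ⟨Λ.zero_mem, 0, R.zero_mem, by rw [zero_left hh]; ring⟩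
      neg_mem' := by
        rintro x ⟨hx, a, ha, hxa⟩
        refine ⟨Λ.neg_mem hx, -a, R.neg_mem ha, ?_⟩
        rw [← neg_one_smul K₀ x, hh.smul_left, hxa]
        ring }
  have hrM : r ∉ M := by
    rintro ⟨-, a, ha, hra⟩
    rw [hre'] at hra
    exact not_isU hR hwu ha (mul_right_cancel₀ hee0 hra)
  have hdec : ∀ x ∈ Λ, ∃ c ∈ R, ∃ y ∈ M, x = c • r + y := by
    intro x hx
    obtain ⟨a, ha, hxa⟩ := hval x hx
    have hc : a * (w * u⁻¹)⁻¹ ∈ R := R.mul_mem ha hwu.2.1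
    refine ⟨a * (w * u⁻¹)⁻¹, hc, x - (a * (w * u⁻¹)⁻¹) • r, ?_, by abel⟩
    refine ⟨Λ.sub_mem hx (hΛ.smul_mem _ hc r hr.mem), 0, R.zero_mem, ?_⟩
    rw [sub_left hh, hh.smul_left, hxa, hre', mul_zero, zero_mul, ← mul_assoc,
      inv_mul_cancel_right₀ hwu.2.2, sub_self]
  rcases hS.only M (fun x hx => hx.1) (by
      rintro c hc x ⟨hx, a, ha, hxa⟩
      refine ⟨hΛ.smul_mem c hc x hx, c * a, R.mul_mem hc ha, ?_⟩
      rw [hh.smul_left, hxa]
      ring) (by
      intro x hx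
      obtain ⟨a, ha, hxa⟩ := hval x hx
      refine ⟨hΛ.smul_mem l hR.mem x hx, a, ha, ?_⟩
      rw [hh.smul_left, hxa]
      ring) (by
      rintro g hg x ⟨hx, a, ha, hxa⟩
      refine ⟨hS.stable g x hx, ?_⟩
      obtain ⟨t, ht⟩ := hline _ (hst g⁻¹ (Γ'.inv_mem hg) e he)
      have h1 : ∀ y : V, h (ρ g y) e = τ t * h y e := by
        intro y
        have h2 := hinv g⁻¹ (ρ g y) e
        rw [← Module.End.mul_apply, ← map_mul, inv_mul_cancel, map_one, Module.End.one_apply, ht,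
          smul_right hh] at h2
        exact h2.symm
      have h3 : τ t ∈ R := by
        obtain ⟨a', ha', hra'⟩ := hval _ (hS.stable g r hr.mem)
        rw [h1, hre', ← mul_assoc] at hra'
        have h4 := mul_right_cancel₀ hee0 hra'
        have h5 : τ t = a' * (w * u⁻¹)⁻¹ := by
          rw [← h4, mul_inv_cancel_right₀ hwu.2.2]
        rw [h5]
        exact R.mul_mem ha' hwu.2.1
      refine ⟨τ t * a, R.mul_mem h3 ha, ?_⟩
      rw [h1, hxa]
      ring) with h1 | ⟨h1, -⟩ | h1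
  · -- the lattice is generated by `r`
    have htop : ∀ x ∈ Λ, x ∈ (⊤ : Submodule K₀ V) → ∃ c ∈ R, ∃ y ∈ Λ, x = c • r + l • y := by
      intro x hx _
      obtain ⟨c, hc, y, hy, rfl⟩ := hdec x hx
      obtain ⟨z, hz, rfl⟩ := h1 y hy
      exact ⟨c, hc, z, hz, rfl⟩
    have hne : (⊤ : Submodule K₀ V) ≠ ⊥ := fun h0 => hU (by
      rw [eq_bot_iff, ← h0]
      exact le_top)
    obtain ⟨e', -, -, -, hline'⟩ := exists_line hR hΛ hh hr hr0 hne htop
    rw [eq_top_iff]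
    intro x _
    obtain ⟨t, rfl⟩ := hline' x Submodule.mem_top
    obtain ⟨t', ht'⟩ := hline' e Submodule.mem_top
    have ht0 : t' ≠ 0 := by
      rintro rfl
      rw [zero_smul] at ht'
      exact hee0 (by rw [ht', zero_left hh])
    have h2 : e' = t'⁻¹ • e := by rw [ht', smul_smul, inv_mul_cancel₀ ht0, one_smul]
    rw [h2]
    exact U.smul_mem _ (U.smul_mem _ he)
  · exact (hrM h1).elim
  · exact (hrM (h1 hr.mem)).elim

/-- **Irreducibility.** -/
theorem irreducible_of_oneSub [FiniteDimensional K₀ V] (hR : IsLoc R l τ) (hΛ : IsLat R l Λ)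
    (hh : IsHerm τ h) (hr : HasRadical R l Λ h r) (hinv : ∀ g x y, h (ρ g x) (ρ g y) = h x y)
    (hS : OneSub R l ρ Λ r Γ') {U : Submodule K₀ V} (hU : ∀ g ∈ Γ', ∀ x ∈ U, ρ g x ∈ U) :
    U = ⊥ ∨ U = ⊤ := by
  by_cases hU0 : U = ⊥
  · exact Or.inl hU0
  right
  -- the reduction of `U`
  let M : AddSubgroup V :=
    { carrier := {z | ∃ x ∈ Λ, x ∈ U ∧ ∃ y ∈ Λ, z = x + l • y}
      add_mem' := by
        rintro _ _ ⟨x, hx, hxU, y, hy, rfl⟩ ⟨x', hx', hxU', y', hy', rfl⟩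
        exact ⟨x + x', Λ.add_mem hx hx', U.add_mem hxU hxU', y + y', Λ.add_mem hy hy', by
          rw [smul_add]; abel⟩
      zero_mem' := ⟨0, Λ.zero_mem, U.zero_mem, 0, Λ.zero_mem, by simp⟩
      neg_mem' := by
        rintro _ ⟨x, hx, hxU, y, hy, rfl⟩
        exact ⟨-x, Λ.neg_mem hx, U.neg_mem hxU, -y, Λ.neg_mem hy, by rw [smul_neg]; abel⟩ }
  have hUM : ∀ x ∈ Λ, x ∈ U → x ∈ M := fun x hx hxU => ⟨x, hx, hxU, 0, Λ.zero_mem, by simp⟩
  rcases hS.only M (by
      rintro _ ⟨x, hx, -, y, hy, rfl⟩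
      exact Λ.add_mem hx (hΛ.smul_mem l hR.mem y hy)) (by
      rintro c hc _ ⟨x, hx, hxU, y, hy, rfl⟩
      exact ⟨c • x, hΛ.smul_mem c hc x hx, U.smul_mem c hxU, c • y, hΛ.smul_mem c hc y hy, by
        rw [smul_add, smul_comm]⟩) (by
      intro x hx
      exact ⟨0, Λ.zero_mem, U.zero_mem, x, hx, by rw [zero_add]⟩) (by
      rintro g hg _ ⟨x, hx, hxU, y, hy, rfl⟩
      exact ⟨ρ g x, hS.stable g x hx, hU g hg x hxU, ρ g y, hS.stable g y hy, by
        rw [map_add, map_smul]⟩) with h1 | ⟨-, h1⟩ | h1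
  · exfalso
    obtain ⟨x, hx, hxU, hprim⟩ := exists_primitive hR hΛ hU0
    obtain ⟨y, hy, hxy⟩ := h1 x (hUM x hx hxU)
    exact hprim y hy hxy
  · exact line_top hR hΛ hh hr hinv hS hU hU0 fun x hx hxU => h1 x (hUM x hx hxU)
  · -- the orthogonal complement
    let W : Submodule K₀ V :=
      { carrier := {x | ∀ u ∈ U, h x u = 0}
        add_mem' := by
          intro x y hx hy u hu
          rw [hh.add_left, hx u hu, hy u hu, add_zero]
        zero_mem' := fun u _ => zero_left hh u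
        smul_mem' := by
          intro t x hx u hu
          rw [hh.smul_left, hx u hu, mul_zero] }
    have hWst : ∀ g ∈ Γ', ∀ x ∈ W, ρ g x ∈ W := by
      intro g hg x hx u hu
      have h2 : u = ρ g (ρ g⁻¹ u) := by
        rw [← Module.End.mul_apply, ← map_mul, mul_inv_cancel, map_one, Module.End.one_apply]
      rw [h2, hinv]
      exact hx _ (hU _ (Γ'.inv_mem hg) u hu)
    have hWker : ∀ x ∈ Λ, x ∈ W → ∃ c ∈ R, ∃ y ∈ Λ, x = c • r + l • y := by
      intro x hx hxW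
      refine hr.radical x hx fun y hy => ?_
      obtain ⟨y', hy', hyU, z, hz, rfl⟩ := h1 hy
      obtain ⟨m, hm, hlm⟩ := hR.map_l
      refine ⟨m * h x z, R.mul_mem hm (hr.integral x hx z hz), ?_⟩
      rw [add_right hh, hxW y' hyU, zero_add, smul_right hh, hlm]
      ring
    by_cases hW0 : W = ⊥
    · -- dimension
      let f : V →ₗ[K₀] (Fin (finrank K₀ U) → K₀) :=
        { toFun := fun x i => h x (finBasis K₀ U i)
          map_add' := fun x y => funext fun i => hh.add_left _ _ _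
          map_smul' := fun c x => funext fun i => hh.smul_left _ _ _ }
      have hf : Function.Injective f := by
        rw [injective_iff_map_eq_zero]
        intro x hx
        have hxW : x ∈ W := by
          intro u hu
          have h2 : ∀ i, h (finBasis K₀ U i : V) x = 0 := fun i => symm_zero hh (congrFun hx i)
          apply symm_zero hh
          have h3 : u = ∑ i, (finBasis K₀ U).repr ⟨u, hu⟩ i • (finBasis K₀ U i : V) := by
            have h4 := congrArg Subtype.val ((finBasis K₀ U).sum_repr ⟨u, hu⟩)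
            rw [Submodule.coe_sum] at h4
            exact h4.symm
          have h5 : ∀ s : Finset (Fin (finrank K₀ U)),
              h (∑ i ∈ s, (finBasis K₀ U).repr ⟨u, hu⟩ i • (finBasis K₀ U i : V)) x = 0 := by
            classical
            intro s
            induction s using Finset.induction_on with
            | empty => rw [Finset.sum_empty, zero_left hh]
            | insert i s hi ih =>
              rw [Finset.sum_insert hi, hh.add_left, hh.smul_left, h2, mul_zero, ih, add_zero]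
          rw [h3]
          exact h5 _
        rw [hW0] at hxW
        exact (Submodule.mem_bot K₀).1 hxW
      have h2 := LinearMap.finrank_le_finrank_of_injective hf
      rw [finrank_fin_fun] at h2
      exact Submodule.eq_top_of_finrank_eq (le_antisymm (Submodule.finrank_le U) h2)
    · exfalso
      have hWtop := line_top hR hΛ hh hr hinv hS hWst hW0 hWker
      apply hU0
      rw [eq_bot_iff]
      intro u hu
      rw [Submodule.mem_bot]
      apply hh.nondeg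
      intro y
      apply symm_zero hh
      have hy : y ∈ W := by rw [hWtop]; exact Submodule.mem_top
      exact hy u hu

end

end

end Pool.Agent.Y134.UL
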