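import Pool.Agent.Y134.UL.Defs
import Pool.Agent.Y134.UL.Lat
import Pool.Agent.Y134.TH.Mid

/-!
# The Tate conjecture from one submodule
-/

set_option autoImplicit false

universe u

namespace Pool.Agent.Y134.UL

open Module Pool.Agent.Y130 Pool.Agent.TH125.Gal Pool.Agent.TH118.SG
open Pool.Agent.H914 Pool.Agent.H914.VarClass Pool.Agent.H914.VarClass.Obj
  Pool.Agent.H914.WeilCohomology Pool.Agent.H281R3.HT Pool.Agent.W552 Pool.Agent.Y134.TF

section
variable {Γ : Type} [Group Γ] {K₀ : Type} [Field K₀] {F : Rep K₀ Γ} {K A : Type} [Field K]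
  [Ring A] [Algebra K A] {χ : Γ →* Kˣ} {tr : A →ₗ[K] K} {m : ℕ} {P : Submodule K A}
  {act : Γ →* (A ≃ₐ[K] A)}

theorem Rep.Good.irreducible (h : F.Good) (U : Submodule K₀ F.V)
    (hU : ∀ g, ∀ x ∈ U, F.rep g x ∈ U) : U = ⊥ ∨ U = ⊤ := by
  obtain ⟨⟨R, l, τ, h, Λ, r, H⟩, -⟩ := h
  exact irreducible_of_oneSub H.loc H.lat H.herm H.radical H.inv H.one fun g _ => hU g

theorem Rep.Spans.act_mem (h : F.Spans χ m P act) (g : Γ) : ∀ x ∈ P, act g x ∈ P := by
  obtain ⟨I, s, j, h1, h2, h3⟩ := h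
  intro x hx
  rw [← h3] at hx ⊢
  induction hx using Submodule.span_induction with
  | mem x hx =>
    obtain ⟨i, v, rfl⟩ := Set.mem_iUnion.1 hx
    rw [h2]
    exact Submodule.smul_mem _ _ (Submodule.subset_span (Set.mem_iUnion.2 ⟨i, _, rfl⟩))
  | zero => rw [map_zero]; exact Submodule.zero_mem _
  | add x y _ _ hx hy => rw [map_add]; exact Submodule.add_mem _ hx hy
  | smul c x _ hx => rw [map_smul]; exact Submodule.smul_mem _ _ hx

theorem noTate' (hN : F.Good) (h : F.Spans χ m P act) (hF : FormOn χ tr m P act) {x : A}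
    (hx : x ∈ P) (hfix : ∃ Δ : Subgroup Γ, Δ.FiniteIndex ∧
      ∀ g ∈ Δ, act g x = (χ g : K) ^ m • x) : x = 0 := by
  obtain ⟨I, s, j, h1, h2, h3⟩ := h
  obtain ⟨Δ', hΔ', hfix⟩ := hfix
  set Δ := Δ'.normalCore with hΔ
  have hn : Δ.Normal := Δ'.normalCore_normal
  have hΔf : Δ.FiniteIndex := inferInstance
  -- the functionals
  have hφ : ∀ i, ∀ g ∈ Δ, ∀ y : F.V, tr (x * j i (F.rep g y)) = tr (x * j i y) := by
    intro i g hg y
    have h4 := hF.act g (x * j i y)
    rw [map_mul, hfix g (Δ'.normalCore_le hg), h2, smul_mul_smul_comm, map_smul,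
      smul_eq_mul, ← pow_add, ← two_mul] at h4
    exact mul_left_cancel₀ (pow_ne_zero _ (Units.ne_zero _)) h4
  set U : Submodule K₀ F.V := Submodule.span K₀ {z | ∃ g ∈ Δ, ∃ y, z = F.rep g y - y} with hU
  have hUst : ∀ g, ∀ z ∈ U, F.rep g z ∈ U := by
    intro γ z hz
    induction hz using Submodule.span_induction with
    | mem z hz =>
      obtain ⟨g, hg, y, rfl⟩ := hz
      refine Submodule.subset_span ⟨γ * g * γ⁻¹, hn.conj_mem g hg γ, F.rep γ y, ?_⟩
      rw [map_sub, ← Module.End.mul_apply, ← map_mul, ← Module.End.mul_apply, ← map_mul,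
        inv_mul_cancel_right]
    | zero => rw [map_zero]; exact Submodule.zero_mem _
    | add x y _ _ hx hy => rw [map_add]; exact Submodule.add_mem _ hx hy
    | smul c x _ hx => rw [map_smul]; exact Submodule.smul_mem _ _ hx
  rcases hN.irreducible U hUst with h4 | h4
  · exfalso
    obtain ⟨g, hg⟩ := hN.2
    obtain ⟨m, hm, -, hmΔ⟩ := Δ.exists_pow_mem_of_index_ne_zero hΔf.index_ne_zero g
    apply hg m hm
    refine LinearMap.ext fun y => ?_
    have h5 : F.rep (g ^ m) y - y ∈ U := Submodule.subset_span ⟨_, hmΔ, y, rfl⟩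
    rw [h4, Submodule.mem_bot] at h5
    exact sub_eq_zero.1 h5
  · have h5 : ∀ i, ∀ y : F.V, tr (x * j i y) = 0 := by
      intro i
      have h6 : ∀ y ∈ U, tr (x * j i y) = 0 := by
        intro y hy
        induction hy using Submodule.span_induction with
        | mem z hz =>
          obtain ⟨g, hg, y, rfl⟩ := hz
          rw [map_sub, mul_sub, map_sub, hφ i g hg, sub_self]
        | zero => rw [map_zero, mul_zero, map_zero]
        | add y z _ _ hy hz => rw [map_add, mul_add, map_add, hy, hz, add_zero]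
        | smul c y _ hy => rw [h1, mul_smul_comm, map_smul, hy, smul_zero]
      intro y
      exact h6 y (by rw [h4]; exact Submodule.mem_top)
    apply hF.nondeg x hx
    intro y hy
    rw [← h3] at hy
    induction hy using Submodule.span_induction with
    | mem y hy =>
      obtain ⟨i, v, rfl⟩ := Set.mem_iUnion.1 hy
      exact h5 i v
    | zero => rw [mul_zero, map_zero]
    | add y z _ _ h1 h2 => rw [mul_add, map_add, h1, h2, add_zero]
    | smul c y _ h1 => rw [mul_smul_comm, map_smul, h1, smul_zero]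

end

variable {k : Type u} [Field k] {𝒱 : VarClass k} {ops : CycleOps 𝒱}
  {W : WeilCohomology.{u, 0} ops} {Γ : Type} [Group Γ]

/-- **The Tate conjecture from one submodule.** -/
theorem tate_of_oneSub {χ : Γ →* W.Kˣ} {X : PVar W Γ} (h : Cover χ X) :
    transcendental W X.X = X.P ∧ HomEqNum W X.X ∧ TateConjecture χ X.toGVar := by
  obtain ⟨hG, he, hP, ⟨A, hA, hAP, ho⟩, K₀, _, F, hN, hS⟩ := h
  have hA' : A ≤ algSpan W X.X := hA
  have hF := formOn hG he hA' hP hAP ho
  obtain ⟨h1, h2, -, h4⟩ := TH.middle_of_noTate hG he hA' hP hAP ho hS.act_mem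
    (fun x hx hfix => noTate' hN hS hF hx hfix)
  exact ⟨h1, h2, h4⟩

end Pool.Agent.Y134.UL
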