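import Pool.Agent.Y134.UL.DefsB
import Pool.Agent.Y134.UL.Lat
import Pool.Agent.Y134.TH.Mid
import Pool.Agent.Y134.TH.Good

/-!
# The Tate conjecture for products of powers from one submodule
-/

set_option autoImplicit false

universe u

namespace Pool.Agent.Y134.UL

open Polynomial Module Pool.Agent.Y130 Pool.Agent.TH125.Gal Pool.Agent.TH118.SG
open Pool.Agent.H914 Pool.Agent.H914.VarClass Pool.Agent.H914.VarClass.Obj
  Pool.Agent.H914.WeilCohomology Pool.Agent.H281R3.HT Pool.Agent.W552 Pool.Agent.Y134.TF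
  Pool.Agent.Y134.TH

section
variable {K₀ K A V : Type} [Field K₀] [Field K] [Algebra K₀ K] [Ring A] [Algebra K A]
  [AddCommGroup V] [Module K₀ V] {Γ : Type} [Group Γ] {χ : Γ →* Kˣ} {tr : A →ₗ[K] K} {m : ℕ}
  {T : Submodule K A} {act : Γ →* (A ≃ₐ[K] A)} {b : V →ₗ[K₀] V →ₗ[K₀] K₀}
  {ρ : Representation K₀ Γ V} {j : V →+ A}

lemma act_mem (h : IsRational χ tr m T act b ρ j) (g : Γ) : ∀ x ∈ T, act g x ∈ T := by
  intro x hx
  rw [← h.span] at hx ⊢
  induction hx using Submodule.span_induction with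
  | mem x hx =>
    obtain ⟨x, rfl⟩ := hx
    rw [h.equivariant']
    exact Submodule.smul_mem _ _ (Submodule.subset_span ⟨_, rfl⟩)
  | zero => rw [map_zero]; exact Submodule.zero_mem _
  | add x y _ _ hx hy => rw [map_add]; exact Submodule.add_mem _ hx hy
  | smul c x _ hx => rw [map_smul]; exact Submodule.smul_mem _ _ hx

end

theorem exists_good {Γ : Type} [Group Γ] {K₀ : Type} [Field K₀] [CharZero K₀]
    {F : FormRep K₀ Γ} (h : StrongOneSub F) (h' : UL.SimpleSign F)
    (hsymm : ∀ x y, F.form x y = F.form y x)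
    (hinv : ∀ g x y, F.form (F.rep g x) (F.rep g y) = F.form x y)
    (hb : ∀ x, (∀ y, F.form x y = 0) → x = 0) :
    1 < finrank K₀ F.V ∧ ∃ g v, GoodVec F.rep F.form g v := by
  obtain ⟨R', l, Λ, r, hloc, hlat, hrad, hirr⟩ := h
  obtain ⟨g, ε, R, hε, hcp, hdeg, hR⟩ := h'
  refine ⟨?_, g, exists_goodVec hb hinv hε hcp hR fun Γ' h1 h2 h3 U hU => ?_⟩
  · have hR0 : R ≠ 0 := by
      rintro rfl
      exact hdeg natDegree_zero
    have h1 := congrArg natDegree hcp
    rw [LinearMap.charpoly_natDegree, natDegree_mul (X_sub_C_ne_zero _) hR0,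
      natDegree_X_sub_C] at h1
    omega
  · have hh : IsHerm (RingHom.id K₀) (fun x y => F.form x y) :=
      { add_left := fun x y z => by rw [map_add, LinearMap.add_apply]
        smul_left := fun c x y => by rw [map_smul, LinearMap.smul_apply, smul_eq_mul]
        symm := Or.inl fun x y => by rw [RingHom.id_apply]; exact hsymm y x
        nondeg := hb }
    exact irreducible_of_oneSub hloc hlat hh hrad hinv (hirr Γ' h1 h2 h3) hU

variable {k : Type u} [Field k] {𝒱 : VarClass k} {ops : CycleOps 𝒱}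
  {W : WeilCohomology.{u, 0} ops} {Γ : Type} [Group Γ]

theorem strongVar {χ : Γ →* W.Kˣ} [IsAlgClosed W.K] {X : PVar W Γ} {E : Γ → Set W.K}
    (h : Strong χ X E) :
    transcendental W X.X = X.P ∧ X.Trans ∧
      IsolatedVar χ X.toGVar E (fun _ : Unit => transcendental W X.X) id ⊤ := by
  obtain ⟨hG, he, hP, ⟨A, hA, hAP, ho⟩, K₀, _, _, _, F, j, hj, hS, hSS, g₁, a, ha, hsimple⟩ := h
  have hA' : A ≤ algSpan W X.X := hA
  have hF := formOn hG he hA' hP hAP ho
  have hdim : 2 * (X.X.dim / 2) = X.X.dim := Nat.mul_div_cancel' he.two_dvd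
  obtain ⟨hfr, g, v, hgood⟩ := exists_good hS hSS (hj.form_symm hF) (hj.form_inv hF)
    (fun x hx => hj.form_zero hF hx)
  have hirr : IrredAct X.act X.P := irred_of_good hj hF hgood
  have hNT : ∀ x ∈ X.P, (∃ Δ : Subgroup Γ, Δ.FiniteIndex ∧
      ∀ g ∈ Δ, X.act g x = (χ g : W.K) ^ (X.X.dim / 2) • x) → x = 0 := by
    rintro x hx ⟨Δ, hΔ, hfix⟩
    by_contra hx0
    have h1 := hirr Δ hΔ (Submodule.span W.K {x})
      ((Submodule.span_singleton_le_iff_mem _ _).2 hx) (by
        intro g hg y hy
        obtain ⟨c, rfl⟩ := Submodule.mem_span_singleton.1 hy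
        rw [map_smul, hfix g hg]
        exact Submodule.smul_mem _ _ (Submodule.smul_mem _ _
          (Submodule.mem_span_singleton_self x)))
    rcases h1 with h1 | h1
    · exact hx0 (Submodule.span_singleton_eq_bot.1 h1)
    · have h2 := hj.rank
      rw [← h1, finrank_span_singleton hx0] at h2
      omega
  obtain ⟨hTP, hnum, hnz, -⟩ := middle_of_noTate hG he hA' hP hAP ho
    (fun g x hx => act_mem hj g x hx) hNT
  have hspan : ∀ z : W.H X.X, (∀ j, ∀ c ∈ algClasses W X.X j, W.tr X.X (z * c) = 0) →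
      ∀ c ∈ algSpan W X.X, W.tr X.X (z * c) = 0 := by
    intro z hz c hc
    induction hc using Submodule.span_induction with
    | mem c hc =>
      obtain ⟨l, hl⟩ := Set.mem_iUnion.1 hc
      exact hz l c hl
    | zero => rw [mul_zero, map_zero]
    | add x y _ _ hx hy => rw [mul_add, map_add, hx, hy, add_zero]
    | smul c x _ hx => rw [mul_smul_comm, map_smul, hx, smul_zero]
  have hne : X.P ≠ ⊥ := by
    intro h0
    have h1 := hj.rank
    rw [h0, finrank_bot] at h1
    omega
  refine ⟨hTP, ⟨?_, ?_, hirr⟩, hG, ⟨hnum, hTP ▸ hP⟩, ?_⟩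
  · intro i c hc h0
    exact hnz c (Submodule.subset_span (Set.mem_iUnion.2 ⟨i, hc⟩)) (hspan c h0)
  · intro x
    rw [← hTP, mem_trans']
    constructor
    · intro h1 l c hc
      exact h1 c (Submodule.subset_span (Set.mem_iUnion.2 ⟨l, hc⟩))
    · intro h1 c hc
      exact hspan x h1 c hc
  rw [hTP]
  refine
    { blocks :=
        { nonempty := ⟨()⟩
          span := iSup_const
          ne := fun _ => hne
          star_star := fun _ => rfl
          orth := fun c d hcd => absurd rfl hcd
          index := inferInstance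
          stable := fun g _ _ x hx => act_mem hj g x hx
          irreducible := fun _ => hirr }
      isolated := ?_
      det := fun c hc => absurd rfl hc }
  intro c
  right
  obtain ⟨v, hv, hv'⟩ := isolated_of_simple hj ha hsimple
  rw [hdim] at hv'
  exact ⟨g₁, _, v, hv, hv'⟩

/-- **The Tate conjecture for products of powers from one submodule.** -/
theorem tate_strong [IsAlgClosed W.K] {χ : Γ →* W.Kˣ} {ι : Type} {X : ι → PVar W Γ}
    {Z : GVar W Γ} (h : ∀ i, Strong χ (X i) (otherEig (fun j => (X j).toGVar) Z i))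
    {S : Set ι} {Y : GVar W Γ}
    (hY : PTower (fun i => (X i).toGVar) Z (fun i n => n + 1 < rk (X i).P) S Y) :
    TateConjecture χ Y ↔ TateConjecture χ Z := by
  have hP : ∀ i, transcendental W (X i).X = (X i).P := fun i => (strongVar (h i)).1
  exact tate_isolated (S := S) (C := fun _ => Unit) (U := fun i _ => transcendental W (X i).X)
    (star := fun _ => id) (Δ := fun _ => ⊤) (fun i => (strongVar (h i)).2.2)
    (PTower_mono (fun i n hn _ _ _ => by
      change n + 1 < finrank W.K (transcendental W (X i).X)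
      rw [hP i]; exact hn) hY) (fun i _ => Or.inl inferInstance)

end Pool.Agent.Y134.UL
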